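import Mathlib

set_option autoImplicit false

/-!
# First returns and languages of generalized star height at most one
-/

namespace Pool.Agent.W883.SH

/-- concatenation -/
def cc {A : Type} (L M : Set (List A)) : Set (List A) := Set.image2 (fun x y => x ++ y) L M

/-- star -/
def sta {A : Type} (L : Set (List A)) : Set (List A) :=
  {w | ∃ l : List (List A), (∀ x ∈ l, x ∈ L) ∧ w = l.flatten}

/-- classes closed under the Boolean operations and concatenation -/
structure Clo {A : Type} (S : Set (Set (List A))) : Prop where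
  empty : (∅ : Set (List A)) ∈ S
  eps : ({[]} : Set (List A)) ∈ S
  letter : ∀ a : A, ({[a]} : Set (List A)) ∈ S
  union : ∀ X ∈ S, ∀ Y ∈ S, X ∪ Y ∈ S
  cat : ∀ X ∈ S, ∀ Y ∈ S, cc X Y ∈ S
  compl : ∀ X ∈ S, Xᶜ ∈ S

section
variable {A : Type} {S : Set (Set (List A))} (hS : Clo S)
include hS

theorem Clo.univ : (Set.univ : Set (List A)) ∈ S := by
  have := hS.compl _ hS.empty
  rwa [Set.compl_empty] at this

theorem Clo.inter {X Y : Set (List A)} (hX : X ∈ S) (hY : Y ∈ S) : X ∩ Y ∈ S := by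
  have := hS.compl _ (hS.union _ (hS.compl _ hX) _ (hS.compl _ hY))
  rwa [Set.compl_union, compl_compl, compl_compl] at this

theorem Clo.iUnion {ι : Type} [Finite ι] {X : ι → Set (List A)} (h : ∀ i, X i ∈ S) :
    (⋃ i, X i) ∈ S := by
  classical
  have := Fintype.ofFinite ι
  have key : ∀ s : Finset ι, (⋃ i ∈ s, X i) ∈ S := by
    intro s
    induction s using Finset.induction_on with
    | empty => simpa using hS.empty
    | insert a s _ ih =>
      rw [Finset.set_biUnion_insert]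
      exact hS.union _ (h a) _ ih
  have := key Finset.univ
  simpa using this

theorem Clo.iInter {ι : Type} [Finite ι] {X : ι → Set (List A)} (h : ∀ i, X i ∈ S) :
    (⋂ i, X i) ∈ S := by
  have := hS.compl _ (hS.iUnion (X := fun i => (X i)ᶜ) fun i => hS.compl _ (h i))
  rwa [Set.compl_iUnion, show (⋂ i, ((X i)ᶜ)ᶜ) = ⋂ i, X i by simp] at this

/-- guarded unions -/
theorem Clo.ite {X : Set (List A)} (p : Prop) (h : p → X ∈ S) : {w | p ∧ w ∈ X} ∈ S := by
  by_cases hp : p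
  · have : {w | p ∧ w ∈ X} = X := by
      ext w
      simp [hp]
    rw [this]
    exact h hp
  · have : {w | p ∧ w ∈ X} = ∅ := by
      ext w
      simp [hp]
    rw [this]
    exact hS.empty

/-- words over a subalphabet -/
theorem Clo.sub [Finite A] (B : Set A) : {w : List A | ∀ a ∈ w, a ∈ B} ∈ S := by
  have h := hS.compl _ (hS.iUnion (X := fun a : A => {w | a ∉ B ∧
    w ∈ cc (cc Set.univ {[a]}) Set.univ}) fun a => hS.ite _ fun _ =>
      hS.cat _ (hS.cat _ hS.univ _ (hS.letter a)) _ hS.univ)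
  convert h using 1
  ext w
  simp only [Set.mem_ofPred_eq, Set.mem_compl_iff, Set.mem_iUnion, not_exists, not_and]
  constructor
  · rintro h1 a ha ⟨u, ⟨u1, -, u2, rfl, rfl⟩, v, -, rfl⟩
    exact ha (h1 a (by simp))
  · intro h1 a ha
    by_contra hcon
    obtain ⟨u, v, rfl⟩ := List.append_of_mem ha
    exact h1 a hcon ⟨u ++ [a], ⟨u, trivial, [a], rfl, rfl⟩, v, trivial, by simp⟩

end

section
variable {A Ω : Type} (δ : Ω → A → Ω) (x : Ω)

/-- runs avoiding `x` -/
def avoid (j : Ω) : Ω → List A → Prop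
  | i, [] => i = j
  | i, a :: w => δ i a ≠ x ∧ avoid j (δ i a) w

/-- the first passages from `i` to `x` -/
def FP (i : Ω) : Set (List A) := {w | ∃ u b k, w = u ++ [b] ∧ avoid δ x k i u ∧ δ k b = x}

/-- the first returns to `x` -/
def FR : Set (List A) := {w | ∃ a, (δ x a = x ∧ w = [a]) ∨ (δ x a ≠ x ∧ ∃ u ∈ FP δ x (δ x a), w = a :: u)}

/-- the words from `x` to `j` without return -/
def NR (j : Ω) : Set (List A) := {w | (j = x ∧ w = []) ∨ ∃ a, δ x a ≠ x ∧ ∃ u, avoid δ x j (δ x a) u ∧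
  w = a :: u}

/-- runs -/
def run (i : Ω) (w : List A) : Ω := w.foldl δ i

theorem run_append (i : Ω) (u v : List A) : run δ i (u ++ v) = run δ (run δ i u) v := by
  simp [run]

theorem run_of_avoid {j : Ω} : ∀ {w : List A} {i : Ω}, avoid δ x j i w → run δ i w = j := by
  intro w
  induction w with
  | nil => exact fun h => h
  | cons a w ih => exact fun h => ih h.2

theorem FP_run {i : Ω} {w : List A} (h : w ∈ FP δ x i) : run δ i w = x := by
  obtain ⟨u, b, k, rfl, h1, h2⟩ := h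
  rw [run_append, run_of_avoid δ x h1]
  exact h2

theorem FR_run {w : List A} (h : w ∈ FR δ x) : run δ x w = x := by
  obtain ⟨a, ⟨h1, rfl⟩ | ⟨h1, u, hu, rfl⟩⟩ := h
  · exact h1
  · exact (FP_run δ x hu : run δ (δ x a) u = x)

theorem NR_run {j : Ω} {w : List A} (h : w ∈ NR δ x j) : run δ x w = j := by
  rcases h with ⟨rfl, rfl⟩ | ⟨a, h1, u, hu, rfl⟩
  · rfl
  · exact (run_of_avoid δ x hu : run δ (δ x a) u = j)

theorem run_split {j : Ω} : ∀ (w : List A) (i : Ω), i ≠ x → run δ i w = j →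
    avoid δ x j i w ∨ ∃ u ∈ FP δ x i, ∃ v, w = u ++ v ∧ run δ x v = j := by
  intro w
  induction w with
  | nil => exact fun i _ h => Or.inl h
  | cons a w ih =>
    intro i hi h
    by_cases ha : δ i a = x
    · refine Or.inr ⟨[a], ⟨[], a, i, rfl, rfl, ha⟩, w, rfl, ?_⟩
      rw [← ha]
      exact h
    · rcases ih (δ i a) ha h with h1 | ⟨u, ⟨u', b, k, rfl, hu, hb⟩, v, rfl, hv⟩
      · exact Or.inl ⟨ha, h1⟩
      · exact Or.inr ⟨a :: (u' ++ [b]), ⟨a :: u', b, k, rfl, ⟨ha, hu⟩, hb⟩, v, rfl, hv⟩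

theorem avoid_ne {j : Ω} : ∀ {w : List A} {i : Ω}, i ≠ x → avoid δ x j i w → j ≠ x := by
  intro w
  induction w with
  | nil =>
    intro i hi h
    rw [← show i = j from h]
    exact hi
  | cons a w ih => exact fun _ h => ih h.1 h.2

theorem run_from {j : Ω} : ∀ (n : ℕ) (w : List A), w.length ≤ n → run δ x w = j →
    w ∈ cc (sta (FR δ x)) (NR δ x j) := by
  intro n
  induction n with
  | zero =>
    intro w hw h
    obtain rfl : w = [] := List.length_eq_zero_iff.1 (Nat.le_zero.1 hw)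
    exact ⟨[], ⟨[], by simp, rfl⟩, [], Or.inl ⟨h.symm, rfl⟩, rfl⟩
  | succ n ih =>
    intro w hw h
    cases w with
    | nil => exact ⟨[], ⟨[], by simp, rfl⟩, [], Or.inl ⟨h.symm, rfl⟩, rfl⟩
    | cons a w =>
      have hlen : w.length ≤ n := by simpa using hw
      by_cases ha : δ x a = x
      · have h' : run δ x w = j := by
          have h2 : run δ (δ x a) w = j := h
          rwa [ha] at h2
        obtain ⟨u, ⟨l, hl, rfl⟩, q, hq, rfl⟩ := ih w hlen h'
        refine ⟨([a] :: l).flatten, ⟨[a] :: l, ?_, rfl⟩, q, hq, by simp⟩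
        intro y hy
        rcases List.mem_cons.1 hy with rfl | hy
        · exact ⟨a, Or.inl ⟨ha, rfl⟩⟩
        · exact hl y hy
      · have h' : run δ (δ x a) w = j := h
        rcases run_split δ x w _ ha h' with h1 | ⟨u, hu, v, rfl, hv⟩
        · exact ⟨[], ⟨[], by simp, rfl⟩, a :: w, Or.inr ⟨a, ha, w, h1, rfl⟩, rfl⟩
        · have hlv : v.length ≤ n := by
            simp only [List.length_append] at hlen
            omega
          obtain ⟨u', ⟨l, hl, rfl⟩, q, hq, rfl⟩ := ih v hlv hv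
          refine ⟨((a :: u) :: l).flatten, ⟨(a :: u) :: l, ?_, rfl⟩, q, hq, by simp⟩
          intro y hy
          rcases List.mem_cons.1 hy with rfl | hy
          · exact ⟨a, Or.inr ⟨ha, u, hu, rfl⟩⟩
          · exact hl y hy

theorem sta_run {w : List A} (h : w ∈ sta (FR δ x)) : run δ x w = x := by
  obtain ⟨l, hl, rfl⟩ := h
  induction l with
  | nil => rfl
  | cons r l ih =>
    rw [List.flatten_cons, run_append, FR_run δ x (hl r (List.mem_cons_self ..))]
    exact ih fun y hy => hl y (List.mem_cons_of_mem _ hy)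

/-- the words from `x` to `j` -/
theorem lang_x (j : Ω) : {w : List A | run δ x w = j} = cc (sta (FR δ x)) (NR δ x j) := by
  ext w
  constructor
  · exact fun h => run_from δ x w.length w le_rfl h
  · rintro ⟨u, hu, q, hq, rfl⟩
    show run δ x (u ++ q) = j
    rw [run_append, sta_run δ x hu, NR_run δ x hq]

/-- the words from `i` to `j` -/
theorem lang_i {i : Ω} (hi : i ≠ x) (j : Ω) : {w : List A | run δ i w = j} =
    {w | avoid δ x j i w} ∪ cc (FP δ x i) (cc (sta (FR δ x)) (NR δ x j)) := by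
  rw [← lang_x]
  ext w
  constructor
  · intro h
    rcases run_split δ x w i hi h with h1 | ⟨u, hu, v, rfl, hv⟩
    · exact Or.inl h1
    · exact Or.inr ⟨u, hu, v, hv, rfl⟩
  · rintro (h | ⟨u, hu, v, hv, rfl⟩)
    · exact run_of_avoid δ x h
    · show run δ i (u ++ v) = j
      rw [run_append, FP_run δ x hu]
      exact hv

end

section
variable {A Ω : Type} [Finite A] [Finite Ω] (δ : Ω → A → Ω) (x : Ω)
  {S : Set (Set (List A))} (hS : Clo S)
include hS

theorem FP_mem {i : Ω} (h : ∀ k, {w | avoid δ x k i w} ∈ S) : FP δ x i ∈ S := by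
  have h1 := hS.iUnion (X := fun p : A × Ω => {w | δ p.2 p.1 = x ∧
    w ∈ cc {w | avoid δ x p.2 i w} {[p.1]}}) fun p => hS.ite _ fun _ =>
      hS.cat _ (h p.2) _ (hS.letter _)
  convert h1 using 1
  ext w
  simp only [Set.mem_iUnion]
  constructor
  · rintro ⟨u, b, k, rfl, hu, hb⟩
    exact ⟨(b, k), hb, u, hu, [b], rfl, rfl⟩
  · rintro ⟨⟨b, k⟩, hb, u, hu, _, rfl, rfl⟩
    exact ⟨u, b, k, rfl, hu, hb⟩

theorem FR_mem (h : ∀ i, i ≠ x → ∀ k, {w | avoid δ x k i w} ∈ S) : FR δ x ∈ S := by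
  have h1 := hS.iUnion (X := fun a : A => {w | δ x a = x ∧ w ∈ ({[a]} : Set (List A))} ∪
    {w | δ x a ≠ x ∧ w ∈ cc {[a]} (FP δ x (δ x a))}) fun a => hS.union _
      (hS.ite _ fun _ => hS.letter a) _ (hS.ite _ fun ha => hS.cat _ (hS.letter a) _
        (FP_mem δ x hS (h _ ha)))
  convert h1 using 1
  ext w
  simp only [Set.mem_iUnion]
  constructor
  · rintro ⟨a, ⟨h1, rfl⟩ | ⟨h1, u, hu, rfl⟩⟩
    · exact ⟨a, Or.inl ⟨h1, rfl⟩⟩
    · exact ⟨a, Or.inr ⟨h1, [a], rfl, u, hu, rfl⟩⟩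
  · rintro ⟨a, ⟨h1, rfl⟩ | ⟨h1, _, rfl, u, hu, rfl⟩⟩
    · exact ⟨a, Or.inl ⟨h1, rfl⟩⟩
    · exact ⟨a, Or.inr ⟨h1, u, hu, rfl⟩⟩

omit [Finite Ω] in
theorem NR_mem (h : ∀ i, i ≠ x → ∀ k, {w | avoid δ x k i w} ∈ S) (j : Ω) : NR δ x j ∈ S := by
  have h1 := hS.union _ (hS.ite (X := {[]}) (j = x) fun _ => hS.eps) _
    (hS.iUnion (X := fun a : A => {w | δ x a ≠ x ∧ w ∈ cc {[a]} {w | avoid δ x j (δ x a) w}})
      fun a => hS.ite _ fun ha => hS.cat _ (hS.letter a) _ (h _ ha j))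
  convert h1 using 1
  ext w
  simp only [Set.mem_union, Set.mem_iUnion]
  constructor
  · rintro (⟨h1, rfl⟩ | ⟨a, h1, u, hu, rfl⟩)
    · exact Or.inl ⟨h1, rfl⟩
    · exact Or.inr ⟨a, h1, [a], rfl, u, hu, rfl⟩
  · rintro (⟨h1, rfl⟩ | ⟨a, h1, _, rfl, u, hu, rfl⟩)
    · exact Or.inl ⟨h1, rfl⟩
    · exact Or.inr ⟨a, h1, u, hu, rfl⟩

/-- the languages between two points, given those avoiding `x` -/
theorem lang_mem (h : ∀ i, i ≠ x → ∀ k, {w | avoid δ x k i w} ∈ S) (hst : sta (FR δ x) ∈ S)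
    (i j : Ω) : {w : List A | run δ i w = j} ∈ S := by
  classical
  by_cases hi : i = x
  · subst hi
    rw [lang_x]
    exact hS.cat _ hst _ (NR_mem δ i hS h j)
  · rw [lang_i δ x hi]
    exact hS.union _ (h i hi j) _ (hS.cat _ (FP_mem δ x hS (h i hi)) _
      (hS.cat _ hst _ (NR_mem δ x hS h j)))

/-- acyclic case -/
theorem avoid_mem (ρ : Ω → ℕ) (hρ : ∀ i a, i ≠ x → δ i a ≠ x → δ i a ≠ i → ρ (δ i a) < ρ i)
    (i : Ω) (hi : i ≠ x) (j : Ω) : {w | avoid δ x j i w} ∈ S := by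
  classical
  obtain ⟨n, hn⟩ : ∃ n, ρ i ≤ n := ⟨_, le_rfl⟩
  induction n using Nat.strong_induction_on generalizing i with
  | _ n ih =>
  have hrec : ∀ a, δ i a ≠ x → δ i a ≠ i → {w | avoid δ x j (δ i a) w} ∈ S := fun a h1 h2 =>
    ih (ρ (δ i a)) ((hρ i a hi h1 h2).trans_le hn) (δ i a) h1 le_rfl
  have h1 := hS.union _ (hS.ite (X := {w : List A | ∀ a ∈ w, a ∈ {a | δ i a = i}}) (i = j)
    fun _ => hS.sub _) _ (hS.iUnion (X := fun a : A => {w | (δ i a ≠ x ∧ δ i a ≠ i) ∧
      w ∈ cc (cc {w : List A | ∀ a ∈ w, a ∈ {a | δ i a = i}} {[a]})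
        {w | avoid δ x j (δ i a) w}})
      fun a => hS.ite _ fun ha => hS.cat _ (hS.cat _ (hS.sub _) _ (hS.letter a)) _
        (hrec a ha.1 ha.2))
  convert h1 using 1
  ext w
  simp only [Set.mem_union, Set.mem_iUnion]
  constructor
  · intro (h : avoid δ x j i w)
    clear h1
    induction w with
    | nil => exact Or.inl ⟨h, by simp⟩
    | cons a w ihw =>
      by_cases ha : δ i a = i
      · have h' : avoid δ x j i w := by
          have := h.2
          rwa [ha] at this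
        rcases ihw h' with ⟨h1, h2⟩ | ⟨b, hb, u, ⟨u1, hu1, _, rfl, rfl⟩, v, hv, rfl⟩
        · refine Or.inl ⟨h1, ?_⟩
          intro b hb
          rcases List.mem_cons.1 hb with rfl | hb
          · exact ha
          · exact h2 b hb
        · refine Or.inr ⟨b, hb, a :: u1 ++ [b], ⟨a :: u1, ?_, [b], rfl, rfl⟩, v, hv, by simp⟩
          intro c hc
          rcases List.mem_cons.1 hc with rfl | hc
          · exact ha
          · exact hu1 c hc
      · exact Or.inr ⟨a, ⟨h.1, ha⟩, [a], ⟨[], by simp, [a], rfl, rfl⟩, w, h.2, rfl⟩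
  · have hloop : ∀ (u v : List A), (∀ a ∈ u, a ∈ {a | δ i a = i}) → avoid δ x j i v →
        avoid δ x j i (u ++ v) := by
      intro u v hu hv
      induction u with
      | nil => exact hv
      | cons a u ihu =>
        have ha : δ i a = i := hu a (List.mem_cons_self ..)
        show δ i a ≠ x ∧ avoid δ x j (δ i a) (u ++ v)
        rw [ha]
        exact ⟨hi, ihu fun b hb => hu b (List.mem_cons_of_mem _ hb)⟩
    rintro (⟨h1, h2⟩ | ⟨b, hb, u, ⟨u1, hu1, _, rfl, rfl⟩, v, hv, rfl⟩)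
    · have := hloop w [] h2 h1
      simpa using this
    · show avoid δ x j i (u1 ++ [b] ++ v)
      rw [List.append_assoc]
      exact hloop _ _ hu1 ⟨hb.1, hv⟩

end

/-- main lemma: the transition monoid of an automaton which is acyclic up to loops after the
removal of one state -/
theorem height_one {A Ω : Type} [Finite A] [Finite Ω] (δ : Ω → A → Ω) (x : Ω) (ρ : Ω → ℕ)
    (hρ : ∀ i a, i ≠ x → δ i a ≠ x → δ i a ≠ i → ρ (δ i a) < ρ i)
    {S : Set (Set (List A))} (hS : Clo S)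
    (hst : ∀ R : Set (List A), (∀ S', Clo S' → R ∈ S') → sta R ∈ S) (i j : Ω) :
    {w : List A | run δ i w = j} ∈ S :=
  lang_mem δ x hS (fun i hi k => avoid_mem δ x hS ρ hρ i hi k)
    (hst _ fun _ hS' => FR_mem δ x hS' fun i hi k => avoid_mem δ x hS' ρ hρ i hi k) i j

end Pool.Agent.W883.SH
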