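import Pool.Agent.W883.SH.Therien

set_option autoImplicit false
-- the negated form of the problem (kept as a helper file, not a hand-in)

namespace Pool.Agent.W883.SH.Negation

/-- The negation of the preceding statement: The language A2 = (στ*σ ∪ τσ*τ(στ*σ)*τσ*τ)* over {σ,τ} has generalized star height exactly two: it lies in the level-2 Boolean-concatenation-star hierarchy but not in level 1. -/
theorem negated_form :
    ¬ (∀ (cat : Set (List Bool) → Set (List Bool) → Set (List Bool))
      (st : Set (List Bool) → Set (List Bool))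
      (Cl : Set (Set (List Bool)) → Set (Set (List Bool))),
      (∀ L M, cat L M = Set.image2 (fun x y => x ++ y) L M) →
      (∀ L, st L = {w | ∃ l : List (List Bool), (∀ x ∈ l, x ∈ L) ∧ w = l.flatten}) →
      (∀ G, Cl G = {L | ∀ S : Set (Set (List Bool)), G ⊆ S →
          (∅ : Set (List Bool)) ∈ S →
          ({[]} : Set (List Bool)) ∈ S →
          ({[false]} : Set (List Bool)) ∈ S →
          ({[true]} : Set (List Bool)) ∈ S →
          (∀ X ∈ S, ∀ Y ∈ S, X ∪ Y ∈ S) →
          (∀ X ∈ S, ∀ Y ∈ S, cat X Y ∈ S) →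
          (∀ X ∈ S, Xᶜ ∈ S) → L ∈ S}) →
      (st (cat (cat ({[false]} : Set (List Bool)) (st {[true]})) {[false]} ∪
            cat (cat (cat (cat ({[true]} : Set (List Bool)) (st {[false]})) {[true]})
                  (st (cat (cat ({[false]} : Set (List Bool)) (st {[true]})) {[false]})))
                (cat (cat ({[true]} : Set (List Bool)) (st {[false]})) {[true]}))
          ∈ Cl (st '' Cl (st '' Cl ∅)) ∧
       st (cat (cat ({[false]} : Set (List Bool)) (st {[true]})) {[false]} ∪
            cat (cat (cat (cat ({[true]} : Set (List Bool)) (st {[false]})) {[true]})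
                  (st (cat (cat ({[false]} : Set (List Bool)) (st {[true]})) {[false]})))
                (cat (cat ({[true]} : Set (List Bool)) (st {[false]})) {[true]}))
          ∉ Cl (st '' Cl ∅))) := by
  intro h
  have h1 := h W883.SH.cc W883.SH.sta
    (fun G => {L | ∀ S : Set (Set (List Bool)), G ⊆ S →
      (∅ : Set (List Bool)) ∈ S → ({[]} : Set (List Bool)) ∈ S →
      ({[false]} : Set (List Bool)) ∈ S → ({[true]} : Set (List Bool)) ∈ S →
      (∀ X ∈ S, ∀ Y ∈ S, X ∪ Y ∈ S) → (∀ X ∈ S, ∀ Y ∈ S, W883.SH.cc X Y ∈ S) →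
      (∀ X ∈ S, Xᶜ ∈ S) → L ∈ S}) (fun _ _ => rfl) (fun _ => rfl) (fun _ => rfl)
  refine h1.2 ?_
  intro S hG e1 e2 e3 e4 e5 e6 e7
  refine W883.SH.A2_mem (S := S) ⟨e1, e2, ?_, e5, e6, e7⟩ ?_
  · intro a
    cases a
    · exact e3
    · exact e4
  · intro R hR
    refine hG ⟨R, ?_, rfl⟩
    intro S' _ f1 f2 f3 f4 f5 f6 f7
    refine hR S' ⟨f1, f2, ?_, f5, f6, f7⟩
    intro a
    cases a
    · exact f3
    · exact f4

end Pool.Agent.W883.SH.Negation
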