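import Pool.Agent.W883.SH.First

set_option autoImplicit false

/-!
# The language `A₂` has generalized star height one
-/

namespace Pool.Agent.W883.SH

/-- the action on the four diagonals of the cube: `false` exchanges `1` and `2`, `true` is a
four-cycle -/
def d4 : Fin 4 → Bool → Fin 4
  | i, true => i + 1
  | 0, false => 0
  | 1, false => 2
  | 2, false => 1
  | 3, false => 3

/-- the parity of the number of `false` -/
def d2 : Fin 2 → Bool → Fin 2
  | i, true => i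
  | i, false => i + 1

/-- the automaton of `A₂` -/
def d6 : Fin 6 → Bool → Fin 6
  | 0, false => 1
  | 0, true => 2
  | 1, false => 0
  | 1, true => 1
  | 2, false => 2
  | 2, true => 3
  | 3, false => 4
  | 3, true => 5
  | 4, false => 3
  | 4, true => 4
  | 5, false => 5
  | 5, true => 0

/-- the product -/
abbrev PS : Type := Fin 6 × Fin 4 × Fin 4 × Fin 4 × Fin 4 × Fin 2

/-- the product automaton -/
def dp (s : PS) (a : Bool) : PS :=
  (d6 s.1 a, d4 s.2.1 a, d4 s.2.2.1 a, d4 s.2.2.2.1 a, d4 s.2.2.2.2.1 a, d2 s.2.2.2.2.2 a)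

/-- the reachable states -/
def reach : List PS := [(0, 0, 1, 2, 3, 0), (1, 0, 2, 1, 3, 1), (2, 1, 2, 3, 0, 0),
  (1, 1, 3, 2, 0, 1), (2, 2, 1, 3, 0, 1), (3, 2, 3, 0, 1, 0), (0, 2, 3, 1, 0, 0),
  (1, 2, 0, 3, 1, 1), (3, 3, 2, 0, 1, 1), (4, 1, 3, 0, 2, 1), (5, 3, 0, 1, 2, 0),
  (2, 3, 0, 2, 1, 0), (0, 1, 0, 3, 2, 0), (1, 3, 1, 0, 2, 1), (4, 3, 1, 0, 2, 0),
  (5, 0, 3, 1, 2, 1), (4, 2, 0, 1, 3, 1), (5, 3, 0, 2, 1, 1), (2, 3, 0, 1, 2, 1),
  (3, 0, 1, 3, 2, 0), (2, 2, 1, 0, 3, 0), (0, 3, 2, 0, 1, 0), (4, 0, 2, 1, 3, 0),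
  (5, 0, 3, 2, 1, 0), (0, 1, 0, 2, 3, 1), (3, 1, 0, 2, 3, 0), (4, 3, 1, 2, 0, 1),
  (0, 0, 1, 3, 2, 1), (3, 0, 1, 2, 3, 1), (4, 0, 2, 3, 1, 1), (5, 1, 2, 0, 3, 0),
  (2, 1, 2, 0, 3, 1), (3, 3, 2, 1, 0, 0), (2, 0, 3, 1, 2, 0), (4, 1, 3, 2, 0, 0),
  (1, 2, 0, 1, 3, 0), (5, 2, 1, 3, 0, 0), (1, 0, 2, 3, 1, 0), (5, 1, 2, 3, 0, 1),
  (5, 2, 1, 0, 3, 1), (3, 2, 3, 1, 0, 1), (2, 0, 3, 2, 1, 1), (4, 2, 0, 3, 1, 0),
  (1, 3, 1, 2, 0, 0), (1, 1, 3, 0, 2, 0), (0, 2, 3, 0, 1, 1), (0, 3, 2, 1, 0, 1),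
  (3, 1, 0, 3, 2, 1)]

/-- the elements fixing the state `0` -/
def good : List (Fin 4 × Fin 4 × Fin 4 × Fin 4 × Fin 2) := [(0, 1, 2, 3, 0), (2, 3, 1, 0, 0),
  (1, 0, 3, 2, 0), (3, 2, 0, 1, 0), (1, 0, 2, 3, 1), (0, 1, 3, 2, 1), (2, 3, 0, 1, 1),
  (3, 2, 1, 0, 1)]

theorem reach_step : ∀ s ∈ reach, ∀ a, dp s a ∈ reach := by decide +kernel

theorem reach_good : ∀ s ∈ reach, (s.1 = 0 ↔ s.2 ∈ good) := by decide +kernel

theorem reach_run (w : List Bool) : ∀ s ∈ reach, run dp s w ∈ reach := by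
  induction w with
  | nil => exact fun s h => h
  | cons a w ih => exact fun s h => ih _ (reach_step s h a)

theorem run_dp (w : List Bool) : ∀ s : PS, run dp s w =
    (run d6 s.1 w, run d4 s.2.1 w, run d4 s.2.2.1 w, run d4 s.2.2.2.1 w, run d4 s.2.2.2.2.1 w,
      run d2 s.2.2.2.2.2 w) := by
  induction w with
  | nil => exact fun s => rfl
  | cons a w ih => exact fun s => ih (dp s a)

theorem run_iff (w : List Bool) : run d6 0 w = 0 ↔
    ∃ g ∈ good, run d4 0 w = g.1 ∧ run d4 1 w = g.2.1 ∧ run d4 2 w = g.2.2.1 ∧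
      run d4 3 w = g.2.2.2.1 ∧ run d2 0 w = g.2.2.2.2 := by
  have h := reach_run w (0, 0, 1, 2, 3, 0) (by decide)
  have h2 := reach_good _ h
  rw [run_dp] at h2
  simp only at h2
  rw [h2]
  constructor
  · exact fun h3 => ⟨_, h3, rfl, rfl, rfl, rfl, rfl⟩
  · rintro ⟨⟨a, b, c, d, e⟩, hg, h3, h4, h5, h6, h7⟩
    simp only at h3 h4 h5 h6 h7
    rw [h3, h4, h5, h6, h7]
    exact hg

/-- the rank function for the removal of the point `1` -/
def rk4 : Fin 4 → ℕ
  | 0 => 0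
  | 1 => 0
  | 2 => 2
  | 3 => 1

theorem rk4_lt : ∀ (i : Fin 4) (a : Bool), i ≠ 1 → d4 i a ≠ 1 → d4 i a ≠ i →
    rk4 (d4 i a) < rk4 i := by decide

theorem rk2_lt : ∀ (i : Fin 2) (a : Bool), i ≠ 0 → d2 i a ≠ 0 → d2 i a ≠ i →
    (0 : ℕ) < 0 := by decide

theorem lang6_mem {S : Set (Set (List Bool))} (hS : Clo S)
    (hst : ∀ R : Set (List Bool), (∀ S', Clo S' → R ∈ S') → sta R ∈ S) :
    {w : List Bool | run d6 0 w = 0} ∈ S := by
  have h4 : ∀ i j, {w : List Bool | run d4 i w = j} ∈ S := height_one d4 1 rk4 rk4_lt hS hst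
  have h2 : ∀ i j, {w : List Bool | run d2 i w = j} ∈ S :=
    height_one d2 0 (fun _ => 0) rk2_lt hS hst
  have h1 := hS.iUnion (X := fun g : {g // g ∈ good} =>
    {w | run d4 0 w = g.1.1} ∩ ({w | run d4 1 w = g.1.2.1} ∩ ({w | run d4 2 w = g.1.2.2.1} ∩
      ({w | run d4 3 w = g.1.2.2.2.1} ∩ {w | run d2 0 w = g.1.2.2.2.2})))) fun g =>
    hS.inter (h4 _ _) (hS.inter (h4 _ _) (hS.inter (h4 _ _) (hS.inter (h4 _ _) (h2 _ _))))
  convert h1 using 1
  ext w
  rw [Set.mem_iUnion]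
  refine (run_iff w).trans ⟨?_, ?_⟩
  · rintro ⟨g, hg, h⟩
    exact ⟨⟨g, hg⟩, h⟩
  · rintro ⟨⟨g, hg⟩, h⟩
    exact ⟨g, hg, h⟩

theorem FP_cases {A Ω : Type} {δ : Ω → A → Ω} {x i : Ω} {w : List A} (h : w ∈ FP δ x i) :
    ∃ b w', w = b :: w' ∧ ((δ i b = x ∧ w' = []) ∨ (δ i b ≠ x ∧ w' ∈ FP δ x (δ i b))) := by
  obtain ⟨u, b, k, rfl, hu, hb⟩ := h
  cases u with
  | nil =>
    have hik : i = k := hu
    subst hik
    exact ⟨b, [], rfl, Or.inl ⟨hb, rfl⟩⟩
  | cons a u => exact ⟨a, u ++ [b], rfl, Or.inr ⟨hu.1, u, b, k, rfl, hu.2, hb⟩⟩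

/-- the first block -/
def B1 : Set (List Bool) := cc (cc {[false]} (sta {[true]})) {[false]}

/-- the outer part of the second block -/
def B0 : Set (List Bool) := cc (cc {[true]} (sta {[false]})) {[true]}

/-- the second block -/
def B2 : Set (List Bool) := cc (cc B0 (sta B1)) B0

theorem replicate_mem (k : ℕ) (b : Bool) : List.replicate k b ∈ sta {[b]} := by
  refine ⟨List.replicate k [b], fun x hx => (List.mem_replicate.1 hx).2, ?_⟩
  induction k with
  | zero => rfl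
  | succ k ih => rw [List.replicate_succ, List.replicate_succ, List.flatten_cons, ← ih]; rfl

theorem mem_B1 (k : ℕ) : false :: (List.replicate k true ++ [false]) ∈ B1 :=
  ⟨false :: List.replicate k true, ⟨[false], rfl, _, replicate_mem k true, rfl⟩, [false], rfl,
    rfl⟩

theorem mem_B0 (k : ℕ) : true :: (List.replicate k false ++ [true]) ∈ B0 :=
  ⟨true :: List.replicate k false, ⟨[true], rfl, _, replicate_mem k false, rfl⟩, [true], rfl,
    rfl⟩

theorem fp1 : ∀ w : List Bool, w ∈ FP d6 0 1 → ∃ k, w = List.replicate k true ++ [false] := by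
  intro w
  induction w with
  | nil =>
    intro h
    obtain ⟨b, w', h1, -⟩ := FP_cases h
    simp at h1
  | cons a w ih =>
    intro h
    obtain ⟨b, w', h1, h2⟩ := FP_cases h
    obtain ⟨rfl, rfl⟩ := List.cons_eq_cons.1 h1
    cases a with
    | false =>
      rcases h2 with ⟨-, rfl⟩ | ⟨h2, -⟩
      · exact ⟨0, rfl⟩
      · exact absurd rfl h2
    | true =>
      rcases h2 with ⟨h2, -⟩ | ⟨-, h2⟩
      · exact absurd h2 (by decide)
      · obtain ⟨k, rfl⟩ := ih h2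
        exact ⟨k + 1, rfl⟩

theorem fp5 : ∀ w : List Bool, w ∈ FP d6 0 5 → ∃ k, w = List.replicate k false ++ [true] := by
  intro w
  induction w with
  | nil =>
    intro h
    obtain ⟨b, w', h1, -⟩ := FP_cases h
    simp at h1
  | cons a w ih =>
    intro h
    obtain ⟨b, w', h1, h2⟩ := FP_cases h
    obtain ⟨rfl, rfl⟩ := List.cons_eq_cons.1 h1
    cases a with
    | true =>
      rcases h2 with ⟨-, rfl⟩ | ⟨h2, -⟩
      · exact ⟨0, rfl⟩
      · exact absurd rfl h2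
    | false =>
      rcases h2 with ⟨h2, -⟩ | ⟨-, h2⟩
      · exact absurd h2 (by decide)
      · obtain ⟨k, rfl⟩ := ih h2
        exact ⟨k + 1, rfl⟩

theorem fp2 : ∀ w : List Bool, w ∈ FP d6 0 2 → ∃ k v, w = List.replicate k false ++ true :: v ∧
    v ∈ FP d6 0 3 := by
  intro w
  induction w with
  | nil =>
    intro h
    obtain ⟨b, w', h1, -⟩ := FP_cases h
    simp at h1
  | cons a w ih =>
    intro h
    obtain ⟨b, w', h1, h2⟩ := FP_cases h
    obtain ⟨rfl, rfl⟩ := List.cons_eq_cons.1 h1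
    cases a with
    | true =>
      rcases h2 with ⟨h2, -⟩ | ⟨-, h2⟩
      · exact absurd h2 (by decide)
      · exact ⟨0, w, rfl, h2⟩
    | false =>
      rcases h2 with ⟨h2, -⟩ | ⟨-, h2⟩
      · exact absurd h2 (by decide)
      · obtain ⟨k, v, rfl, hv⟩ := ih h2
        exact ⟨k + 1, v, rfl, hv⟩

theorem fp4 : ∀ w : List Bool, w ∈ FP d6 0 4 → ∃ k v, w = List.replicate k true ++ false :: v ∧
    v ∈ FP d6 0 3 := by
  intro w
  induction w with
  | nil =>
    intro h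
    obtain ⟨b, w', h1, -⟩ := FP_cases h
    simp at h1
  | cons a w ih =>
    intro h
    obtain ⟨b, w', h1, h2⟩ := FP_cases h
    obtain ⟨rfl, rfl⟩ := List.cons_eq_cons.1 h1
    cases a with
    | false =>
      rcases h2 with ⟨h2, -⟩ | ⟨-, h2⟩
      · exact absurd h2 (by decide)
      · exact ⟨0, w, rfl, h2⟩
    | true =>
      rcases h2 with ⟨h2, -⟩ | ⟨-, h2⟩
      · exact absurd h2 (by decide)
      · obtain ⟨k, v, rfl, hv⟩ := ih h2
        exact ⟨k + 1, v, rfl, hv⟩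

theorem fp3 : ∀ (n : ℕ) (w : List Bool), w.length ≤ n → w ∈ FP d6 0 3 →
    ∃ l ∈ sta B1, ∃ k, w = l ++ true :: (List.replicate k false ++ [true]) := by
  intro n
  induction n with
  | zero =>
    intro w hw h
    obtain ⟨b, w', rfl, -⟩ := FP_cases h
    simp at hw
  | succ n ih =>
    intro w hw h
    obtain ⟨b, w', rfl, h2⟩ := FP_cases h
    cases b with
    | true =>
      rcases h2 with ⟨h2, -⟩ | ⟨-, h2⟩
      · exact absurd h2 (by decide)
      · obtain ⟨k, rfl⟩ := fp5 w' h2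
        exact ⟨[], ⟨[], by simp, rfl⟩, k, rfl⟩
    | false =>
      rcases h2 with ⟨h2, -⟩ | ⟨-, h2⟩
      · exact absurd h2 (by decide)
      · obtain ⟨k, v, rfl, hv⟩ := fp4 w' h2
        have hlen : v.length ≤ n := by
          simp only [List.length_cons, List.length_append, List.length_replicate] at hw
          omega
        obtain ⟨_, ⟨l, hl, rfl⟩, k', rfl⟩ := ih v hlen hv
        refine ⟨((false :: (List.replicate k true ++ [false])) :: l).flatten,
          ⟨_, ?_, rfl⟩, k', by simp⟩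
        intro y hy
        rcases List.mem_cons.1 hy with rfl | hy
        · exact mem_B1 k
        · exact hl y hy

theorem FR_sub : FR d6 0 ⊆ B1 ∪ B2 := by
  rintro w ⟨a, ⟨h1, -⟩ | ⟨-, u, hu, rfl⟩⟩
  · cases a <;> exact absurd h1 (by decide)
  · cases a with
    | false =>
      obtain ⟨k, rfl⟩ := fp1 u hu
      exact Or.inl (mem_B1 k)
    | true =>
      obtain ⟨k, v, rfl, hv⟩ := fp2 u hu
      obtain ⟨l, hl, k', rfl⟩ := fp3 _ v le_rfl hv
      refine Or.inr ⟨true :: (List.replicate k false ++ [true]) ++ l,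
        ⟨_, mem_B0 k, l, hl, rfl⟩, _, mem_B0 k', by simp⟩

theorem run_sta {R : Set (List Bool)} {i : Fin 6} (h : ∀ r ∈ R, run d6 i r = i) {w : List Bool}
    (hw : w ∈ sta R) : run d6 i w = i := by
  obtain ⟨l, hl, rfl⟩ := hw
  induction l with
  | nil => rfl
  | cons r l ih =>
    rw [List.flatten_cons, run_append, h r (hl r (List.mem_cons_self ..))]
    exact ih fun y hy => hl y (List.mem_cons_of_mem _ hy)

theorem run_B1 {r : List Bool} (h : r ∈ B1) : run d6 0 r = 0 ∧ run d6 3 r = 3 := by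
  obtain ⟨_, ⟨_, rfl, u, hu, rfl⟩, _, rfl, rfl⟩ := h
  constructor
  · show run d6 0 ([false] ++ u ++ [false]) = 0
    rw [run_append, run_append]
    have : run d6 (run d6 0 [false]) u = 1 := run_sta (i := 1) (by rintro _ rfl; rfl) hu
    rw [this]
    rfl
  · show run d6 3 ([false] ++ u ++ [false]) = 3
    rw [run_append, run_append]
    have : run d6 (run d6 3 [false]) u = 4 := run_sta (i := 4) (by rintro _ rfl; rfl) hu
    rw [this]
    rfl

theorem run_B0 {r : List Bool} (h : r ∈ B0) : run d6 0 r = 3 ∧ run d6 3 r = 0 := by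
  obtain ⟨_, ⟨_, rfl, u, hu, rfl⟩, _, rfl, rfl⟩ := h
  constructor
  · show run d6 0 ([true] ++ u ++ [true]) = 3
    rw [run_append, run_append]
    have : run d6 (run d6 0 [true]) u = 2 := run_sta (i := 2) (by rintro _ rfl; rfl) hu
    rw [this]
    rfl
  · show run d6 3 ([true] ++ u ++ [true]) = 0
    rw [run_append, run_append]
    have : run d6 (run d6 3 [true]) u = 5 := run_sta (i := 5) (by rintro _ rfl; rfl) hu
    rw [this]
    rfl

theorem run_B2 {r : List Bool} (h : r ∈ B2) : run d6 0 r = 0 := by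
  obtain ⟨_, ⟨u, hu, v, hv, rfl⟩, u', hu', rfl⟩ := h
  show run d6 0 (u ++ v ++ u') = 0
  rw [run_append, run_append, (run_B0 hu).1, run_sta (fun r hr => (run_B1 hr).2) hv,
    (run_B0 hu').2]

/-- the language `A₂` -/
theorem lang_eq : sta (B1 ∪ B2) = {w : List Bool | run d6 0 w = 0} := by
  apply Set.Subset.antisymm
  · intro w hw
    exact run_sta (by
      rintro r (hr | hr)
      · exact (run_B1 hr).1
      · exact run_B2 hr) hw
  · rw [lang_x]
    rintro _ ⟨_, ⟨l, hl, rfl⟩, q, hq, rfl⟩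
    rcases hq with ⟨-, rfl⟩ | ⟨a, ha, u, hu, rfl⟩
    · exact ⟨l, fun y hy => FR_sub (hl y hy), by simp⟩
    · exact absurd rfl (avoid_ne d6 0 ha hu)

theorem A2_mem {S : Set (Set (List Bool))} (hS : Clo S)
    (hst : ∀ R : Set (List Bool), (∀ S', Clo S' → R ∈ S') → sta R ∈ S) :
    sta (B1 ∪ B2) ∈ S := by
  rw [lang_eq]
  exact lang6_mem hS hst

end Pool.Agent.W883.SH
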